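import Mathlib

set_option autoImplicit false

/-!
Project TY, task MULT, general part: the area formula with multiplicity (adapted from
`Pool/Agent/Helper287/AM/Plane.lean`) and the integral of `‖w‖⁻²` over a ring.
-/

open MeasureTheory Set Filter Topology

namespace Pool.Agent.Y333.TY.MultX

theorem mult_det (w : ℂ) :
    ContinuousLinearMap.det (w • (ContinuousLinearMap.id ℝ ℂ)) = ‖w‖ ^ 2 := by
  have h1 : (((w • (ContinuousLinearMap.id ℝ ℂ)) : ℂ →L[ℝ] ℂ) : ℂ →ₗ[ℝ] ℂ)
      = Algebra.lmul ℝ ℂ w := by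
    ext <;> simp
  rw [ContinuousLinearMap.det, h1, ← Algebra.norm_apply, Algebra.norm_complex_apply,
    Complex.normSq_eq_norm_sq]

theorem mult_count {B : Set ℂ} (g : ℂ → ℂ) (S' : ℕ → Set ℂ) (hB : ∀ k, S' k ⊆ B)
    (hdisj : Pairwise (Function.onFun Disjoint S')) (N : ℕ)
    (hN : ∀ w, Set.encard {z : ℂ | z ∈ B ∧ g z = w} ≤ N) (w : ℂ) :
    ∑' k, (g '' (S' k)).indicator (fun _ => (1 : ENNReal)) w ≤ (N : ENNReal) := by
  classical
  rw [ENNReal.tsum_eq_iSup_sum]
  refine iSup_le fun s => ?_
  have h1 : ∑ k ∈ s, (g '' (S' k)).indicator (fun _ => (1 : ENNReal)) w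
      = ((s.filter (fun k => w ∈ g '' (S' k))).card : ENNReal) := by
    rw [Finset.card_filter]
    push_cast
    refine Finset.sum_congr rfl fun k _ => ?_
    by_cases h : w ∈ g '' (S' k)
    · simp only [Set.indicator_of_mem h, if_pos h]
    · simp only [Set.indicator_of_notMem h, if_neg h]
  rw [h1]
  have hz : ∀ k : ℕ, ∃ z : ℂ, w ∈ g '' (S' k) → z ∈ S' k ∧ g z = w := by
    intro k
    by_cases h : w ∈ g '' (S' k)
    · obtain ⟨z, hz, hz'⟩ := h
      exact ⟨z, fun _ => ⟨hz, hz'⟩⟩
    · exact ⟨0, fun h' => absurd h' h⟩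
  choose z hz using hz
  set t := s.filter (fun k => w ∈ g '' (S' k)) with ht
  have hinj : Set.InjOn z (t : Set ℕ) := by
    intro i hi j hj hij
    by_contra hne
    have hi' := (hz i (Finset.mem_filter.1 hi).2).1
    have hj' := (hz j (Finset.mem_filter.1 hj).2).1
    rw [← hij] at hj'
    exact Set.disjoint_left.1 (hdisj hne) hi' hj'
  have hcard : (t.image z).card = t.card := Finset.card_image_of_injOn hinj
  have hsub : ((t.image z : Finset ℂ) : Set ℂ) ⊆ {z : ℂ | z ∈ B ∧ g z = w} := by
    intro y hy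
    rw [Finset.mem_coe, Finset.mem_image] at hy
    obtain ⟨k, hk, rfl⟩ := hy
    have := hz k (Finset.mem_filter.1 hk).2
    exact ⟨hB k this.1, this.2⟩
  have h2 : ((t.card : ℕ) : ℕ∞) ≤ (N : ℕ∞) := by
    rw [← hcard, ← Set.encard_coe_eq_coe_finsetCard]
    exact (Set.encard_le_encard hsub).trans (hN w)
  have h3 : t.card ≤ N := by exact_mod_cast h2
  exact_mod_cast h3

/-- The area formula with multiplicity at most `N`. -/
theorem area_mult (g : ℂ → ℂ) {U V : Set ℂ} (hU : IsOpen U) (hg : DifferentiableOn ℂ g U)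
    (hV : MeasurableSet V) (hVU : V ⊆ U) (N : ℕ)
    (hN : ∀ w, Set.encard {z : ℂ | z ∈ V ∧ g z = w} ≤ N)
    (ψ : ℂ → ENNReal) (hψ : Measurable ψ) :
    ∫⁻ z in V, ENNReal.ofReal (‖deriv g z‖ ^ 2) * ψ (g z) ≤ (∫⁻ w, ψ w) * N := by
  classical
  set Z : Set ℂ := {z | deriv g z ≠ 0} with hZ
  have hZm : MeasurableSet Z := (measurable_deriv g) (measurableSet_singleton 0).compl
  set S : Set ℂ := Z ∩ V with hS
  have hSm : MeasurableSet S := hZm.inter hV
  have hred : ∫⁻ z in V, ENNReal.ofReal (‖deriv g z‖ ^ 2) * ψ (g z)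
      = ∫⁻ z in S, ENNReal.ofReal (‖deriv g z‖ ^ 2) * ψ (g z) := by
    rw [hS, ← Measure.restrict_restrict hZm, ← lintegral_indicator hZm]
    congr 1
    funext z
    by_cases h : z ∈ Z
    · simp only [Set.indicator_of_mem h]
    · have h' : deriv g z = 0 := not_not.1 h
      simp [Set.indicator_of_notMem h, h']
  rw [hred]
  set f' : ℂ → (ℂ →L[ℝ] ℂ) := fun z => (deriv g z) • (ContinuousLinearMap.id ℝ ℂ) with hf'
  have hder : ∀ z ∈ V, HasFDerivAt g (f' z) z := by
    intro z hz
    have h1 : HasDerivAt g (deriv g z) z :=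
      (hg.differentiableAt (hU.mem_nhds (hVU hz))).hasDerivAt
    have h2 := h1.complexToReal_fderiv
    refine h2.congr_fderiv ?_
    ext <;> simp [hf']
  have hdet : ∀ z, (f' z).det = ‖deriv g z‖ ^ 2 := fun z => mult_det _
  have hdet0 : ∀ z ∈ S, (f' z).det ≠ 0 := by
    intro z hz
    rw [hdet]
    have : deriv g z ≠ 0 := hz.1
    positivity
  let r : (ℂ →L[ℝ] ℂ) → NNReal := fun A =>
    if h : A.det ≠ 0 then ‖((A.toContinuousLinearEquivOfDetNeZero h).symm : ℂ →L[ℝ] ℂ)‖₊⁻¹ / 2 +
      (if ‖((A.toContinuousLinearEquivOfDetNeZero h).symm : ℂ →L[ℝ] ℂ)‖₊ = 0 then 1 else 0) else 1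
  have rpos : ∀ A, r A ≠ 0 := by
    intro A
    simp only [r]
    split_ifs with h h2
    · positivity
    · positivity
    · exact one_ne_zero
  obtain ⟨t, A, hdisj, htm, hcov, happ, hex⟩ :=
    exists_partition_approximatesLinearOn_of_hasFDerivWithinAt g S f'
      (fun x hx => (hder x hx.2).hasFDerivWithinAt) r rpos
  have hinj : ∀ k, InjOn g (S ∩ t k) := by
    intro k
    by_cases hne : S.Nonempty
    · obtain ⟨y, hy, hAy⟩ := hex hne k
      have hd : (A k).det ≠ 0 := by rw [hAy]; exact hdet0 y hy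
      have h1 : ApproximatesLinearOn g
        (((A k).toContinuousLinearEquivOfDetNeZero hd : ℂ ≃L[ℝ] ℂ) : ℂ →L[ℝ] ℂ)
        (S ∩ t k) (r (A k)) := by
        simpa using happ k
      refine h1.injOn ?_
      by_cases hz : ‖(((A k).toContinuousLinearEquivOfDetNeZero hd).symm : ℂ →L[ℝ] ℂ)‖₊ = 0
      · left
        refine ⟨fun a b => ?_⟩
        have h0 : (((A k).toContinuousLinearEquivOfDetNeZero hd).symm : ℂ →L[ℝ] ℂ) = 0 := by
          simpa using hz
        have : ∀ c : ℂ, c = 0 := by
          intro c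
          have h3 := congrArg (fun L : ℂ →L[ℝ] ℂ => L ((A k).toContinuousLinearEquivOfDetNeZero hd c)) h0
          have h4 := ((A k).toContinuousLinearEquivOfDetNeZero hd).symm_apply_apply c
          rw [← h4]
          exact h3
        rw [this a, this b]
      · right
        simp only [r, dif_pos hd, if_neg hz, add_zero]
        exact NNReal.half_lt_self (by simpa using hz)
    · rw [Set.not_nonempty_iff_eq_empty] at hne
      simp [hne]
  set S' : ℕ → Set ℂ := fun k => S ∩ t k with hS'
  have hSm' : ∀ k, MeasurableSet (S' k) := fun k => hSm.inter (htm k)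
  have hder' : ∀ k, ∀ x ∈ S' k, HasFDerivWithinAt g (f' x) (S' k) x := fun k x hx =>
    (hder x hx.1.2).hasFDerivWithinAt
  have him : ∀ k, MeasurableSet (g '' (S' k)) := fun k =>
    measurable_image_of_fderivWithin (hSm' k) (hder' k) (hinj k)
  have hUn : S = ⋃ k, S' k := by
    ext x; constructor
    · intro hx
      obtain ⟨k, hk⟩ := mem_iUnion.1 (hcov hx)
      exact mem_iUnion.2 ⟨k, hx, hk⟩
    · intro hx
      obtain ⟨k, hk⟩ := mem_iUnion.1 hx
      exact hk.1
  have hdisj' : Pairwise (Function.onFun Disjoint S') := by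
    intro i j hij
    exact (hdisj hij).mono inter_subset_right inter_subset_right
  have hcount := mult_count (B := V) g S' (fun k x hx => hx.1.2) hdisj' N hN
  calc ∫⁻ z in S, ENNReal.ofReal (‖deriv g z‖ ^ 2) * ψ (g z)
      = ∑' k, ∫⁻ z in S' k, ENNReal.ofReal (‖deriv g z‖ ^ 2) * ψ (g z) := by
        conv_lhs => rw [hUn]
        exact lintegral_iUnion hSm' hdisj' _
    _ = ∑' k, ∫⁻ y in g '' (S' k), ψ y := by
        refine tsum_congr fun k => ?_
        rw [lintegral_image_eq_lintegral_abs_det_fderiv_mul volume (hSm' k) (hder' k) (hinj k) ψ]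
        refine lintegral_congr fun x => ?_
        rw [hdet, abs_of_nonneg (by positivity)]
    _ = ∑' k, ∫⁻ y, (g '' (S' k)).indicator ψ y := by
        refine tsum_congr fun k => ?_
        rw [lintegral_indicator (him k)]
    _ = ∫⁻ y, ∑' k, (g '' (S' k)).indicator ψ y :=
        (lintegral_tsum (fun k => (hψ.indicator (him k)).aemeasurable)).symm
    _ ≤ ∫⁻ w, ψ w * N := by
        refine lintegral_mono fun y => ?_
        have h1 : ∑' k, (g '' (S' k)).indicator ψ y =
            ψ y * ∑' k, (g '' (S' k)).indicator (fun _ => (1 : ENNReal)) y := by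
          rw [← ENNReal.tsum_mul_left]
          refine tsum_congr fun k => ?_
          by_cases hy : y ∈ g '' (S' k)
          · simp [hy]
          · simp [hy]
        rw [h1]
        exact mul_le_mul_right (hcount y) (ψ y)
    _ = (∫⁻ w, ψ w) * N := lintegral_mul_const _ hψ

/-- the ring -/
def Rg (r R : ℝ) : Set ℂ := {w | r ≤ ‖w‖ ∧ ‖w‖ ≤ R}

theorem Rg_meas (r R : ℝ) : MeasurableSet (Rg r R) :=
  (measurableSet_le measurable_const measurable_norm).inter
    (measurableSet_le measurable_norm measurable_const)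

/-- The integral of `‖w‖⁻²` over a ring. -/
theorem ring_int {r R : ℝ} (hr : 0 < r) (hR : r ≤ R) :
    ∫⁻ w : ℂ, (Rg r R).indicator (fun w => ENNReal.ofReal ((‖w‖ ^ 2)⁻¹)) w =
      ENNReal.ofReal (2 * Real.pi * Real.log (R / r)) := by
  have hpi := Real.pi_pos
  rw [← Complex.lintegral_comp_polarCoord_symm]
  set S : Set (ℝ × ℝ) := Icc r R ×ˢ Ioo (-Real.pi) Real.pi with hS
  have hSm : MeasurableSet S := measurableSet_Icc.prod measurableSet_Ioo
  have hTm : MeasurableSet polarCoord.target := by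
    rw [polarCoord_target]
    exact measurableSet_Ioi.prod measurableSet_Ioo
  have hST : S ⊆ polarCoord.target := by
    rw [polarCoord_target]
    apply prod_mono _ subset_rfl
    intro x hx
    exact lt_of_lt_of_le hr hx.1
  have hnorm : ∀ q ∈ polarCoord.target, ‖Complex.polarCoord.symm q‖ = q.1 := by
    intro q hq
    rw [polarCoord_target] at hq
    have h0 : 0 < q.1 := hq.1
    rw [Complex.norm_polarCoord_symm, abs_of_pos h0]
  have h1 : ∫⁻ q in polarCoord.target, ENNReal.ofReal q.1 •
      (Rg r R).indicator (fun w => ENNReal.ofReal ((‖w‖ ^ 2)⁻¹)) (Complex.polarCoord.symm q) =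
      ∫⁻ q in polarCoord.target, S.indicator (fun q => ENNReal.ofReal (q.1⁻¹)) q := by
    refine setLIntegral_congr_fun hTm fun q hq => ?_
    have hq' := hq
    rw [polarCoord_target] at hq'
    have h0 : 0 < q.1 := hq'.1
    have hn := hnorm q hq
    by_cases hqS : q ∈ S
    · have hm : Complex.polarCoord.symm q ∈ Rg r R := by
        refine ⟨?_, ?_⟩
        · rw [hn]; exact hqS.1.1
        · rw [hn]; exact hqS.1.2
      rw [indicator_of_mem hm, indicator_of_mem hqS, hn, smul_eq_mul, ← ENNReal.ofReal_mul h0.le]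
      congr 1
      field_simp
    · have hm : Complex.polarCoord.symm q ∉ Rg r R := by
        rintro ⟨h2, h3⟩
        rw [hn] at h2 h3
        exact hqS ⟨⟨h2, h3⟩, hq'.2⟩
      rw [indicator_of_notMem hm, indicator_of_notMem hqS, smul_zero]
  rw [h1, lintegral_indicator hSm, Measure.restrict_restrict hSm, inter_eq_self_of_subset_left hST,
    Measure.volume_eq_prod, hS, setLIntegral_prod _ (by fun_prop)]
  simp only [lintegral_const, Measure.restrict_apply MeasurableSet.univ, univ_inter,
    Real.volume_Ioo]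
  rw [lintegral_mul_const _ (by fun_prop)]
  have h2 : ∫⁻ x in Icc r R, ENNReal.ofReal x⁻¹ = ENNReal.ofReal (Real.log (R / r)) := by
    rw [← integral_inv_of_pos hr (hr.trans_le hR), intervalIntegral.integral_of_le hR,
      ← integral_Icc_eq_integral_Ioc, ofReal_integral_eq_lintegral_ofReal]
    · have hc : ContinuousOn (fun x : ℝ => x⁻¹) (Icc r R) := by
        apply continuousOn_inv₀.mono
        intro x hx
        exact (lt_of_lt_of_le hr hx.1).ne'
      exact hc.integrableOn_Icc
    · rw [Filter.EventuallyLE, ae_restrict_iff' measurableSet_Icc]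
      refine Filter.Eventually.of_forall fun x hx => ?_
      have : 0 < x := lt_of_lt_of_le hr hx.1
      simp only [Pi.zero_apply]
      positivity
  have hlog : 0 ≤ Real.log (R / r) := Real.log_nonneg (by rw [le_div_iff₀ hr]; linarith)
  rw [h2, ← ENNReal.ofReal_mul hlog]
  congr 1
  ring

end Pool.Agent.Y333.TY.MultX
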