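import Pool.Agent.Y272.TY.Stm
import Pool.Agent.Y333.TY.MultA

set_option autoImplicit false

/-!
Project TY, task MULT: area with multiplicity for a polynomial composed with a univalent map.
-/

open Complex Filter Topology Metric Set MeasureTheory

namespace Pool.Agent.Y333.TY

open Pool.Agent.H712R2 Pool.Agent.H713R2 Pool.Agent.W677.Mar Pool.Agent.Y272.TY
open Pool.Agent.Y333.TY.MultX

theorem mult_root_count {d : ℕ} (hd : 2 ≤ d) (n : ℕ) (w : ℂ) :
    Set.encard {c : ℂ | P d (n + 1) c = w} ≤ ((d ^ n : ℕ) : ℕ∞) := by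
  classical
  set q : Polynomial ℂ := PP d (n + 1) - Polynomial.C w with hq
  have hdeg : q.natDegree = d ^ n := by
    rw [hq, Polynomial.natDegree_sub_C, natDegree_PP hd]
  have hq0 : q ≠ 0 := by
    intro h
    rw [h, Polynomial.natDegree_zero] at hdeg
    have : 0 < d ^ n := pow_pos (by omega) _
    omega
  have hsub : {c : ℂ | P d (n + 1) c = w} ⊆ (q.roots.toFinset : Set ℂ) := by
    intro c hc
    rw [Finset.mem_coe, Multiset.mem_toFinset, Polynomial.mem_roots hq0, Polynomial.IsRoot, hq,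
      Polynomial.eval_sub, Polynomial.eval_C, eval_PP]
    exact sub_eq_zero.2 hc
  refine (Set.encard_le_encard hsub).trans ?_
  rw [Set.encard_coe_eq_coe_finsetCard]
  have h1 : q.roots.toFinset.card ≤ d ^ n :=
    (Multiset.toFinset_card_le _).trans ((Polynomial.card_roots' q).trans hdeg.le)
  exact_mod_cast h1

/-- **Task MULT.** -/
theorem mult : St_Mult := by
  intro d β n V r R hd hβ hV hV1 hV0 hr hR hVr
  set g : ℂ → ℂ := fun y => P d (n + 1) (cc β y) with hgdef
  set U : Set ℂ := ball 0 1 \ {0} with hUdef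
  have hU : IsOpen U := isOpen_ball.sdiff isClosed_singleton
  have hVU : V ⊆ U := fun x hx => ⟨hV1 hx, fun h => hV0 (by rw [← mem_singleton_iff.1 h]; exact hx)⟩
  have hcc : DifferentiableOn ℂ (cc β) U := by
    have h1 : DifferentiableOn ℂ (fun x : ℂ => x⁻¹) U :=
      differentiableOn_inv.mono fun x hx => hx.2
    exact h1.mul (hβ.diff.mono sdiff_subset)
  have hg : DifferentiableOn ℂ g U := (differentiable_P d (n + 1)).comp_differentiableOn hcc
  have hN : ∀ w, Set.encard {z : ℂ | z ∈ V ∧ g z = w} ≤ ((d ^ n : ℕ) : ℕ∞) := by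
    intro w
    have hinj : InjOn (cc β) {z : ℂ | z ∈ V ∧ g z = w} := by
      intro x hx y hy hxy
      exact hβ.inj x (hVU hx.1).1 y (hVU hy.1).1 (hVU hx.1).2 (hVU hy.1).2 hxy
    rw [← hinj.encard_image]
    refine (Set.encard_le_encard ?_).trans (mult_root_count hd n w)
    rintro _ ⟨z, hz, rfl⟩
    exact hz.2
  have hψ : Measurable ((Rg r R).indicator (fun w : ℂ => ENNReal.ofReal ((‖w‖ ^ 2)⁻¹))) :=
    Measurable.indicator (by fun_prop) (Rg_meas r R)
  have h1 := area_mult g hU hg hV hVU (d ^ n) hN _ hψ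
  rw [ring_int hr hR] at h1
  have h2 : ∫⁻ x in V, ENNReal.ofReal (‖deriv g x / g x‖ ^ 2) =
      ∫⁻ z in V, ENNReal.ofReal (‖deriv g z‖ ^ 2) *
        (Rg r R).indicator (fun w : ℂ => ENNReal.ofReal ((‖w‖ ^ 2)⁻¹)) (g z) := by
    refine setLIntegral_congr_fun hV fun x hx => ?_
    have hm : g x ∈ Rg r R := hVr x hx
    rw [indicator_of_mem hm, ← ENNReal.ofReal_mul (by positivity), norm_div, div_pow,
      div_eq_mul_inv]
  show ∫⁻ x in V, ENNReal.ofReal (‖deriv g x / g x‖ ^ 2) ≤ _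
  rw [h2]
  refine h1.trans (le_of_eq ?_)
  have hlog : 0 ≤ Real.log (R / r) := Real.log_nonneg (by rw [le_div_iff₀ hr]; linarith)
  have e : ((d ^ n : ℕ) : ENNReal) = ENNReal.ofReal ((d : ℝ) ^ n) := by
    rw [← ENNReal.ofReal_natCast]
    congr 1
    push_cast
    rfl
  rw [e, ← ENNReal.ofReal_mul (by have := Real.pi_pos; positivity), mul_comm]

end Pool.Agent.Y333.TY
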